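import Mathlib

/-!
# Propagation redundancy proofs without new variables: definitions

Clauses, unit propagation, propagation redundancy (PR), and derivations in the proof system
PR without new variables, in which learned clauses may also be deleted.
-/

namespace Pool.Agent.PR

/-- A literal over the variables `V`: a variable together with the value which makes the
literal true. -/
abbrev Lit (V : Type*) := V × Bool

/-- A clause is a finite set of literals, read as their disjunction. -/
abbrev Clause (V : Type*) := Finset (Lit V)

/-- A CNF is a finite set of clauses, read as their conjunction. -/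
abbrev CNF (V : Type*) := Finset (Clause V)

/-- The complementary literal. -/
def neg {V : Type*} (l : Lit V) : Lit V := (l.1, !l.2)

/-- The total assignment `x` satisfies the clause `C`. -/
def Sat {V : Type*} (x : V → Bool) (C : Clause V) : Prop := ∃ l ∈ C, x l.1 = l.2

/-- The CNF `F` is unsatisfiable: every total assignment falsifies one of its clauses. -/
def Unsat {V : Type*} (F : CNF V) : Prop := ∀ x : V → Bool, ∃ C ∈ F, ¬ Sat x C

/-- `UP Γ U l`: the literal `l` is obtained by unit propagation from the clauses `Γ` and the
set `U` of unit literals. -/
inductive UP {V : Type*} (Γ : CNF V) (U : Finset (Lit V)) : Lit V → Prop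
  | unit {l : Lit V} : l ∈ U → UP Γ U l
  | prop {C : Clause V} {l : Lit V} : C ∈ Γ → l ∈ C →
      (∀ l' ∈ C, l' ≠ l → UP Γ U (neg l')) → UP Γ U l

/-- Unit propagation from the clauses `Γ` and the unit literals `U` reaches a conflict: either
all literals of some clause of `Γ` are falsified, or two complementary literals are derived. -/
def Conflict {V : Type*} (Γ : CNF V) (U : Finset (Lit V)) : Prop :=
  (∃ C ∈ Γ, ∀ l ∈ C, UP Γ U (neg l)) ∨ ∃ l, UP Γ U l ∧ UP Γ U (neg l)

/-- The negation of a clause, as a set of unit literals. -/
def negs {V : Type*} [DecidableEq V] (C : Clause V) : Finset (Lit V) := C.image neg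

/-- The partial assignment `τ` (`none` means unassigned) satisfies the clause `C`. -/
def TSat {V : Type*} (τ : V → Option Bool) (C : Clause V) : Prop := ∃ l ∈ C, τ l.1 = some l.2

/-- The literals of the clause `C` whose variables are not assigned by `τ`. If `τ` does not
satisfy `C`, this is the restricted clause. -/
def restr {V : Type*} (τ : V → Option Bool) (C : Clause V) : Clause V :=
  C.filter fun l => τ l.1 = none

/-- `C` follows from `Γ` by reverse unit propagation. -/
def RUP {V : Type*} [DecidableEq V] (Γ : CNF V) (C : Clause V) : Prop := Conflict Γ (negs C)

/-- `C` is propagation redundant with respect to `Γ`: there is a partial assignment `τ`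
satisfying `C` such that for every clause `D` of `Γ` not satisfied by `τ`, unit propagation
refutes `Γ` together with the negation of `C` and the negation of `D` restricted by `τ`. -/
def PRed {V : Type*} [DecidableEq V] (Γ : CNF V) (C : Clause V) : Prop :=
  ∃ τ : V → Option Bool, TSat τ C ∧
    ∀ D ∈ Γ, TSat τ D ∨ Conflict Γ (negs C ∪ negs (restr τ D))

/-- `Derives F L Γ`: starting from the CNF `F` one can reach the set of clauses `Γ` by adding,
one after the other, the learned clauses in the list `L` (the latest first), where each
learned clause, at the moment it is added, is a reverse unit propagation consequence of the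
current set of clauses or is propagation redundant with respect to it; learned clauses may be
deleted from the current set at any time and free of charge. All clauses are over the variables
`V` of `F`: there are no new variables. -/
inductive Derives {V : Type*} [DecidableEq V] (F : CNF V) : List (Clause V) → CNF V → Prop
  | start : Derives F [] F
  | rup {L : List (Clause V)} {Γ : CNF V} {C : Clause V} :
      Derives F L Γ → RUP Γ C → Derives F (C :: L) (insert C Γ)
  | pr {L : List (Clause V)} {Γ : CNF V} {C : Clause V} :
      Derives F L Γ → PRed Γ C → Derives F (C :: L) (insert C Γ)
  | del {L : List (Clause V)} {Γ Δ : CNF V} :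
      Derives F L Γ → F ⊆ Δ → Δ ⊆ Γ → Derives F L Δ

end Pool.Agent.PR
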