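import Mathlib
import Pool.Agent.Lib_helper80.PR.Defs

/-!
# The local consequence relation for a system of parity constraints
-/

namespace Pool.Agent.PR

open Finset

section Core

variable {V : Type*} [Fintype V] [DecidableEq V] {m k : ℕ}

/-- Parity of `x` on the edge `j` (with multiplicity). -/
def par (E : Fin m → Fin k → V) (j : Fin m) (x : V → Bool) : ZMod 2 :=
  ∑ i, if x (E j i) then 1 else 0

/-- The parity constraint `j`. -/
def EqAt (E : Fin m → Fin k → V) (β : Fin m → ZMod 2) (j : Fin m) (x : V → Bool) : Prop :=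
  par E j x = β j

/-- `x` agrees with the partial assignment `ρ`. -/
def Agree (ρ : V → Option Bool) (x : V → Bool) : Prop := ∀ v b, ρ v = some b → x v = b

/-- `Φ` follows, for assignments agreeing with `ρ`, from at most `s` of the constraints. -/
def Loc (E : Fin m → Fin k → V) (β : Fin m → ZMod 2) (ρ : V → Option Bool) (s : ℕ)
    (Φ : (V → Bool) → Prop) : Prop :=
  ∃ G : Finset (Fin m), G.card ≤ s ∧ ∀ x, Agree ρ x → (∀ j ∈ G, EqAt E β j x) → Φ x

/-- `Φ` depends only on the variables in `Y`. -/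
def Supp (Y : Finset V) (Φ : (V → Bool) → Prop) : Prop :=
  ∀ x x', (∀ v ∈ Y, x v = x' v) → Φ x → Φ x'

omit [Fintype V] [DecidableEq V] in
theorem Supp.mono {Y Y' : Finset V} (h : Y ⊆ Y') {Φ : (V → Bool) → Prop} (hY : Supp Y Φ) :
    Supp Y' Φ := fun x x' hx => hY x x' fun v hv => hx v (h hv)

/-- Vertices unset by `ρ` which are incident exactly once with the edges in `G`. -/
def once (E : Fin m → Fin k → V) (ρ : V → Option Bool) (G : Finset (Fin m)) : Finset V :=
  univ.filter fun v => ρ v = none ∧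
    ((G ×ˢ (univ : Finset (Fin k))).filter fun p => E p.1 p.2 = v).card = 1

/-- Expansion after the restriction. -/
def Expand (E : Fin m → Fin k → V) (ρ : V → Option Bool) (s : ℕ) : Prop :=
  ∀ G : Finset (Fin m), G.card ≤ s → G.card ≤ (once E ρ G).card

theorem par_flip (E : Fin m → Fin k → V) (j : Fin m) (x : V → Bool) (v : V) :
    par E j (Function.update x v (!x v)) =
      par E j x + ((univ.filter fun i => E j i = v).card : ZMod 2) := by
  unfold par
  rw [Finset.card_filter, Nat.cast_sum, ← Finset.sum_add_distrib]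
  refine Finset.sum_congr rfl fun i _ => ?_
  by_cases h : E j i = v
  · subst h
    rw [Function.update_self]
    cases x (E j i) <;> simp <;> decide
  · rw [Function.update_of_ne h]
    simp [h]

variable {E : Fin m → Fin k → V} {β : Fin m → ZMod 2} {ρ : V → Option Bool} {s : ℕ}
  {Φ Ψ : (V → Bool) → Prop} {Y : Finset V}

omit [Fintype V] [DecidableEq V] in
theorem Loc.mono (h : Loc E β ρ s Φ) (hi : ∀ x, Agree ρ x → Φ x → Ψ x) : Loc E β ρ s Ψ := by
  obtain ⟨G, hG, h⟩ := h
  exact ⟨G, hG, fun x hx hj => hi x hx (h x hx hj)⟩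

omit [Fintype V] [DecidableEq V] in
theorem Loc.triv (h : ∀ x, Agree ρ x → Φ x) : Loc E β ρ s Φ :=
  ⟨∅, by simp, fun x hx _ => h x hx⟩

theorem Loc.min (hE : Expand E ρ s) (hY : Supp Y Φ) (h : Loc E β ρ s Φ) :
    Loc E β ρ Y.card Φ := by
  classical
  have hex : ∃ N, ∃ G : Finset (Fin m), G.card = N ∧
      ∀ x, Agree ρ x → (∀ j ∈ G, EqAt E β j x) → Φ x := by
    obtain ⟨G, _, h⟩ := h
    exact ⟨_, G, rfl, h⟩
  obtain ⟨G, hGc, hG⟩ := Nat.find_spec hex
  have hmin : ∀ G' : Finset (Fin m),
      (∀ x, Agree ρ x → (∀ j ∈ G', EqAt E β j x) → Φ x) → G.card ≤ G'.card := by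
    intro G' hG'
    rw [hGc]
    exact Nat.find_min' hex ⟨G', rfl, hG'⟩
  have hGs : G.card ≤ s := by
    obtain ⟨G', hs', hG'⟩ := h
    exact (hmin G' hG').trans hs'
  refine ⟨G, ?_, hG⟩
  refine (hE G hGs).trans (Finset.card_le_card ?_)
  intro v hv
  by_contra hvY
  rw [once, Finset.mem_filter] at hv
  obtain ⟨-, hρ, h1⟩ := hv
  obtain ⟨⟨j, i⟩, hji⟩ := Finset.card_eq_one.1 h1
  have hmem : (j, i) ∈ (G ×ˢ (univ : Finset (Fin k))).filter fun p => E p.1 p.2 = v := by
    rw [hji]; simp
  have hjG : j ∈ G := by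
    simp only [Finset.mem_filter, Finset.mem_product] at hmem
    exact hmem.1.1
  have hEv : E j i = v := by
    simp only [Finset.mem_filter, Finset.mem_product] at hmem
    exact hmem.2
  have huniq : ∀ j' ∈ G, ∀ i', E j' i' = v → j' = j ∧ i' = i := by
    intro j' hj' i' h'
    have : (j', i') ∈ (G ×ˢ (univ : Finset (Fin k))).filter fun p => E p.1 p.2 = v := by
      simp [hj', h']
    rw [hji, Finset.mem_singleton, Prod.mk.injEq] at this
    exact this
  have hlt : (G.erase j).card < G.card := Finset.card_erase_lt_of_mem hjG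
  refine absurd (hmin (G.erase j) ?_) (not_le.2 hlt)
  intro x hx hxG
  by_cases hj : EqAt E β j x
  · refine hG x hx fun j' hj' => ?_
    by_cases hjj : j' = j
    · rw [hjj]; exact hj
    · exact hxG j' (Finset.mem_erase.2 ⟨hjj, hj'⟩)
  · have hx' : Agree ρ (Function.update x v (!x v)) := by
      intro u b hu
      have huv : u ≠ v := by
        rintro rfl
        rw [hρ] at hu
        exact absurd hu (by simp)
      rw [Function.update_of_ne huv]
      exact hx u b hu
    have hΦ : Φ (Function.update x v (!x v)) := by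
      refine hG _ hx' fun j' hj' => ?_
      unfold EqAt
      rw [par_flip]
      by_cases hjj : j' = j
      · subst hjj
        have hc : (univ.filter fun i' => E j' i' = v) = {i} := by
          ext i'
          simp only [Finset.mem_filter, Finset.mem_univ, true_and, Finset.mem_singleton]
          refine ⟨fun h' => (huniq j' hj' i' h').2, fun h' => by rw [h']; exact hEv⟩
        rw [hc, Finset.card_singleton]
        unfold EqAt at hj
        have key : ∀ a b : ZMod 2, ¬ a = b → a + ((1 : ℕ) : ZMod 2) = b := by decide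
        exact key _ _ hj
      · have hc : (univ.filter fun i' => E j' i' = v) = ∅ := by
          ext i'
          simp only [Finset.mem_filter, Finset.mem_univ, true_and, Finset.notMem_empty, iff_false]
          exact fun h' => hjj (huniq j' hj' i' h').1
        rw [hc, Finset.card_empty, Nat.cast_zero, add_zero]
        exact hxG j' (Finset.mem_erase.2 ⟨hjj, hj'⟩)
    refine hY _ _ ?_ hΦ
    intro u hu
    have huv : u ≠ v := by
      rintro rfl
      exact hvY hu
    rw [Function.update_of_ne huv]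

theorem Loc.and (hE : Expand E ρ s) (hs : 2 * Y.card ≤ s) (hΦ : Supp Y Φ) (hΨ : Supp Y Ψ)
    (h1 : Loc E β ρ s Φ) (h2 : Loc E β ρ s Ψ) : Loc E β ρ s fun x => Φ x ∧ Ψ x := by
  classical
  obtain ⟨G1, hc1, h1⟩ := h1.min hE hΦ
  obtain ⟨G2, hc2, h2⟩ := h2.min hE hΨ
  refine ⟨G1 ∪ G2, (Finset.card_union_le _ _).trans (by omega), fun x hx hj => ⟨?_, ?_⟩⟩
  · exact h1 x hx fun j hj' => hj j (Finset.mem_union_left _ hj')
  · exact h2 x hx fun j hj' => hj j (Finset.mem_union_right _ hj')

theorem Loc.all {ι : Type*} (hE : Expand E ρ s) (hs : 2 * Y.card ≤ s) (I : Finset ι)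
    (Φ : ι → (V → Bool) → Prop) (hΦ : ∀ i ∈ I, Supp Y (Φ i))
    (h : ∀ i ∈ I, Loc E β ρ s (Φ i)) : Loc E β ρ s fun x => ∀ i ∈ I, Φ i x := by
  classical
  induction I using Finset.induction_on with
  | empty => exact Loc.triv fun x _ i hi => absurd hi (Finset.notMem_empty i)
  | insert a I ha ih =>
    have h1 := h a (Finset.mem_insert_self a I)
    have h2 := ih (fun i hi => hΦ i (Finset.mem_insert_of_mem hi))
      (fun i hi => h i (Finset.mem_insert_of_mem hi))
    have hS : Supp Y fun x => ∀ i ∈ I, Φ i x := by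
      intro x x' hx hh i hi
      exact hΦ i (Finset.mem_insert_of_mem hi) x x' hx (hh i hi)
    refine (h1.and hE hs (hΦ a (Finset.mem_insert_self a I)) hS h2).mono ?_
    intro x _ hx i hi
    rcases Finset.mem_insert.1 hi with rfl | hi
    · exact hx.1
    · exact hx.2 i hi

/-- The variables of a set of literals. -/
def vars (C : Finset (Lit V)) : Finset V := C.image Prod.fst

/-- All literals in `U` are true. -/
def Cube (U : Finset (Lit V)) (x : V → Bool) : Prop := ∀ l ∈ U, x l.1 = l.2

omit [Fintype V] in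
theorem mem_vars {C : Finset (Lit V)} {l : Lit V} (h : l ∈ C) : l.1 ∈ vars C :=
  Finset.mem_image_of_mem _ h

omit [Fintype V] in
theorem supp_cube (U : Finset (Lit V)) : Supp (vars U) (Cube U) := by
  intro x x' hx h l hl
  rw [← hx _ (mem_vars hl)]
  exact h l hl

omit [Fintype V] in
theorem supp_sat (C : Finset (Lit V)) : Supp (vars C) (fun x => Sat x C) := by
  rintro x x' hx ⟨l, hl, h⟩
  refine ⟨l, hl, ?_⟩
  rw [← hx _ (mem_vars hl)]
  exact h

omit [Fintype V] [DecidableEq V] in
theorem Supp.symm' (h : Supp Y Φ) {x x' : V → Bool} (hx : ∀ v ∈ Y, x v = x' v) : Φ x' → Φ x :=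
  h x' x fun v hv => (hx v hv).symm

omit [Fintype V] [DecidableEq V] in
theorem Supp.imp (h1 : Supp Y Φ) (h2 : Supp Y Ψ) : Supp Y fun x => Φ x → Ψ x :=
  fun x x' hx h hΦ => h2 x x' hx (h (h1.symm' hx hΦ))

omit [Fintype V] [DecidableEq V] in
theorem Supp.and (h1 : Supp Y Φ) (h2 : Supp Y Ψ) : Supp Y fun x => Φ x ∧ Ψ x :=
  fun x x' hx h => ⟨h1 x x' hx h.1, h2 x x' hx h.2⟩

omit [Fintype V] [DecidableEq V] in
theorem Supp.not (h1 : Supp Y Φ) : Supp Y fun x => ¬ Φ x :=
  fun _ _ hx h hΦ => h (h1.symm' hx hΦ)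

omit [Fintype V] [DecidableEq V] in
theorem supp_eval {v : V} (hv : v ∈ Y) (P : Bool → Prop) : Supp Y fun x => P (x v) := by
  intro x x' hx h
  have := hx v hv
  rw [← this]
  exact h

/-- The state of a clause in the lower bound argument. -/
def Good (E : Fin m → Fin k → V) (β : Fin m → ZMod 2) (ρ : V → Option Bool) (s w : ℕ)
    (C : Clause V) : Prop :=
  TSat ρ C ∨ ((vars C).card ≤ w ∧ Loc E β ρ s fun x => Sat x C)

omit [Fintype V] [DecidableEq V] in
theorem bool_ne_not {a b : Bool} (h : ¬ a = b) : a = !b := by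
  cases a <;> cases b <;> simp_all

/-- Conjunction of all statements obtained by unit propagation for the literals of a clause. -/
theorem clause_step {w W : ℕ} (hE : Expand E ρ s) (hs : 2 * W ≤ s) {Γ : CNF V}
    {U : Finset (Lit V)} (hU : (vars U).card + w ≤ W) {C : Clause V}
    (hC : (vars C).card ≤ w) (hCl : Loc E β ρ s fun x => Sat x C) (P : Lit V → Prop)
    (h : ∀ l' ∈ C, P l' → Loc E β ρ s fun x => Cube U x → x l'.1 = !l'.2) :
    Loc E β ρ s fun x => Cube U x → Sat x C ∧ ∀ l' ∈ C, P l' → x l'.1 = !l'.2 := by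
  classical
  have hYc : 2 * (vars U ∪ vars C).card ≤ s := by
    have := Finset.card_union_le (vars U) (vars C)
    omega
  have hU' : Supp (vars U ∪ vars C) (Cube U) := (supp_cube U).mono Finset.subset_union_left
  have h1 : Loc E β ρ s fun x => ∀ l' ∈ C.filter P, Cube U x → x l'.1 = !l'.2 := by
    refine Loc.all hE hYc (C.filter P) (fun l' x => Cube U x → x l'.1 = !l'.2) ?_ ?_
    · intro l' hl'
      refine hU'.imp ?_
      refine supp_eval (v := l'.1) ?_ (fun b => b = !l'.2)
      exact Finset.mem_union_right _ (mem_vars (Finset.mem_filter.1 hl').1)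
    · intro l' hl'
      exact h l' (Finset.mem_filter.1 hl').1 (Finset.mem_filter.1 hl').2
  have hS1 : Supp (vars U ∪ vars C) fun x => ∀ l' ∈ C.filter P, Cube U x → x l'.1 = !l'.2 := by
    intro x x' hx hh l' hl'
    refine (hU'.imp (supp_eval (v := l'.1) ?_ (fun b => b = !l'.2))) x x' hx (hh l' hl')
    exact Finset.mem_union_right _ (mem_vars (Finset.mem_filter.1 hl').1)
  have hS2 : Supp (vars U ∪ vars C) fun x => Sat x C :=
    (supp_sat C).mono Finset.subset_union_right
  refine (h1.and hE hYc hS1 hS2 hCl).mono ?_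
  intro x _ hx hc
  exact ⟨hx.2, fun l' hl' hP => hx.1 l' (Finset.mem_filter.2 ⟨hl', hP⟩) hc⟩

theorem up_loc {w W : ℕ} (hE : Expand E ρ s) (hs : 2 * W ≤ s) {Γ : CNF V}
    (hΓ : ∀ C ∈ Γ, Good E β ρ s w C) {U : Finset (Lit V)} (hU : (vars U).card + w ≤ W)
    {l : Lit V} (h : UP Γ U l) : Loc E β ρ s fun x => Cube U x → x l.1 = l.2 := by
  classical
  induction h with
  | unit hl => exact Loc.triv fun x _ hx => hx _ hl
  | @prop C l hC hl _ ih =>
    rcases hΓ C hC with ⟨l', hl', hρ⟩ | ⟨hw, hCl⟩
    · by_cases hll : l' = l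
      · subst hll
        exact Loc.triv fun x hx _ => hx _ _ hρ
      · refine (ih l' hl' hll).mono ?_
        intro x hx h hc
        have h1 := h hc
        have h2 := hx _ _ hρ
        simp only [neg] at h1
        rw [h2] at h1
        cases hb : l'.2 <;> rw [hb] at h1 <;> simp at h1
    · refine (clause_step hE hs (Γ := Γ) hU hw hCl (fun l' => l' ≠ l) ?_).mono ?_
      · intro l' hl' hne
        exact ih l' hl' hne
      · intro x _ h hc
        obtain ⟨⟨l', hl', hs'⟩, h'⟩ := h hc
        by_cases hll : l' = l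
        · rw [← hll]; exact hs'
        · have := h' l' hl' hll
          rw [hs'] at this
          cases hb : l'.2 <;> rw [hb] at this <;> simp at this

theorem conflict_loc {w W : ℕ} (hE : Expand E ρ s) (hs : 2 * W ≤ s) {Γ : CNF V}
    (hΓ : ∀ C ∈ Γ, Good E β ρ s w C) {U : Finset (Lit V)} (hU : (vars U).card + w ≤ W)
    (hw1 : 1 ≤ w) (h : Conflict Γ U) : Loc E β ρ s fun x => ¬ Cube U x := by
  classical
  rcases h with ⟨C, hC, h⟩ | ⟨l, h1, h2⟩
  · rcases hΓ C hC with ⟨l', hl', hρ⟩ | ⟨hw, hCl⟩
    · refine (up_loc hE hs hΓ hU (h l' hl')).mono ?_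
      intro x hx h hc
      have h1 := h hc
      have h2 := hx _ _ hρ
      simp only [neg] at h1
      rw [h2] at h1
      cases hb : l'.2 <;> rw [hb] at h1 <;> simp at h1
    · refine (clause_step hE hs (Γ := Γ) hU hw hCl (fun _ => True) ?_).mono ?_
      · intro l' hl' _
        exact up_loc hE hs hΓ hU (h l' hl')
      · intro x _ h hc
        obtain ⟨⟨l', hl', hs'⟩, h'⟩ := h hc
        have := h' l' hl' trivial
        rw [hs'] at this
        cases hb : l'.2 <;> rw [hb] at this <;> simp at this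
  · have h1' := up_loc hE hs hΓ hU h1
    have h2' := up_loc hE hs hΓ hU h2
    have hYc : 2 * (vars U ∪ {l.1}).card ≤ s := by
      have := Finset.card_union_le (vars U) {l.1}
      rw [Finset.card_singleton] at this
      omega
    have hU' : Supp (vars U ∪ {l.1}) (Cube U) := (supp_cube U).mono Finset.subset_union_left
    have hm : l.1 ∈ vars U ∪ {l.1} := Finset.mem_union_right _ (Finset.mem_singleton_self _)
    refine (h1'.and hE hYc (hU'.imp (supp_eval hm fun b => b = l.2))
      (hU'.imp (supp_eval hm fun b => b = !l.2)) h2').mono ?_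
    intro x _ h hc
    have a := h.1 hc
    have b := h.2 hc
    rw [a] at b
    cases hb : l.2 <;> rw [hb] at b <;> simp at b

end Core

end Pool.Agent.PR
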