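import Mathlib
import Pool.Agent.Lib_helper80.PR.Core

/-!
# Propagation redundancy steps preserve local consequence
-/

namespace Pool.Agent.PR

open Finset

section Step

variable {V : Type*} [DecidableEq V] {m k : ℕ}

/-- Parity of a bit vector. -/
def bpar (a : Fin k → Bool) : ZMod 2 := ∑ i, if a i then 1 else 0

/-- The clause forbidding the values `a` on the edge `j`. -/
def clauseOf (E : Fin m → Fin k → V) (j : Fin m) (a : Fin k → Bool) : Clause V :=
  univ.image fun i => (E j i, !a i)

/-- Tautological clause. -/
def Taut (C : Clause V) : Prop := ∃ l ∈ C, neg l ∈ C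

open Classical in
/-- The CNF of a system of parity constraints. -/
noncomputable def cnf (E : Fin m → Fin k → V) (β : Fin m → ZMod 2) : CNF V :=
  ((univ : Finset (Fin m × (Fin k → Bool))).filter
    fun p => bpar p.2 ≠ β p.1 ∧ ¬ Taut (clauseOf E p.1 p.2)).image fun p => clauseOf E p.1 p.2

/-- The vertices of an edge. -/
def edge (E : Fin m → Fin k → V) (j : Fin m) : Finset V := univ.image (E j)

theorem edge_card (E : Fin m → Fin k → V) (j : Fin m) : (edge E j).card ≤ k := by
  unfold edge
  exact Finset.card_image_le.trans (by simp)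

theorem mem_edge (E : Fin m → Fin k → V) (j : Fin m) (i : Fin k) : E j i ∈ edge E j :=
  Finset.mem_image_of_mem _ (Finset.mem_univ _)

theorem sat_of_taut {C : Clause V} (h : Taut C) (x : V → Bool) : Sat x C := by
  obtain ⟨l, hl, hn⟩ := h
  by_cases hx : x l.1 = l.2
  · exact ⟨l, hl, hx⟩
  · exact ⟨neg l, hn, bool_ne_not hx⟩

theorem eqAt_iff (E : Fin m → Fin k → V) (β : Fin m → ZMod 2) (j : Fin m) (x : V → Bool) :
    EqAt E β j x ↔ ∀ a : Fin k → Bool, bpar a ≠ β j → Sat x (clauseOf E j a) := by
  constructor
  · intro h a ha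
    by_contra hs
    apply ha
    rw [← show par E j x = β j from h]
    unfold bpar par
    refine Finset.sum_congr rfl fun i _ => ?_
    have : ¬ x (E j i) = !a i := by
      intro hx
      exact hs ⟨(E j i, !a i), Finset.mem_image_of_mem _ (Finset.mem_univ i), hx⟩
    have h2 := bool_ne_not this
    rw [Bool.not_not] at h2
    rw [h2]
  · intro h
    by_contra hn
    obtain ⟨l, hl, hs⟩ := h (fun i => x (E j i)) hn
    unfold clauseOf at hl
    obtain ⟨i, _, rfl⟩ := Finset.mem_image.1 hl
    simp at hs

theorem vars_clauseOf (E : Fin m → Fin k → V) (j : Fin m) (a : Fin k → Bool) :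
    vars (clauseOf E j a) ⊆ edge E j := by
  intro v hv
  obtain ⟨l, hl, rfl⟩ := Finset.mem_image.1 hv
  obtain ⟨i, _, rfl⟩ := Finset.mem_image.1 hl
  exact mem_edge E j i

theorem clauseOf_card (E : Fin m → Fin k → V) (j : Fin m) (a : Fin k → Bool) :
    (clauseOf E j a).card ≤ k := by
  unfold clauseOf
  exact Finset.card_image_le.trans (by simp)

theorem cnf_unsat (E : Fin m → Fin k → V) (β : Fin m → ZMod 2)
    (h : ∀ x : V → Bool, ∃ j, ¬ EqAt E β j x) : Unsat (cnf E β) := by
  classical
  intro x
  obtain ⟨j, hj⟩ := h x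
  rw [eqAt_iff] at hj
  push Not at hj
  obtain ⟨a, ha, hs⟩ := hj
  refine ⟨clauseOf E j a, ?_, hs⟩
  unfold cnf
  refine Finset.mem_image.2 ⟨(j, a), ?_, rfl⟩
  simp only [Finset.mem_filter, Finset.mem_univ, true_and]
  exact ⟨ha, fun ht => hs (sat_of_taut ht x)⟩

theorem mem_cnf {E : Fin m → Fin k → V} {β : Fin m → ZMod 2} {C : Clause V}
    (h : C ∈ cnf E β) : ∃ j a, C = clauseOf E j a ∧ bpar a ≠ β j ∧ ¬ Taut C := by
  classical
  unfold cnf at h
  obtain ⟨⟨j, a⟩, hp, rfl⟩ := Finset.mem_image.1 h
  simp only [Finset.mem_filter, Finset.mem_univ, true_and] at hp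
  exact ⟨j, a, rfl, hp.1, hp.2⟩

theorem cnf_card (E : Fin m → Fin k → V) (β : Fin m → ZMod 2) :
    (cnf E β).card ≤ m * 2 ^ k := by
  classical
  unfold cnf
  refine Finset.card_image_le.trans ((Finset.card_filter_le _ _).trans ?_)
  simp

variable [Fintype V]

theorem par_inj (E : Fin m → Fin k → V) (j : Fin m) (i₀ : Fin k) {x y : V → Bool}
    (h : par E j x = par E j y) (ho : ∀ i, i ≠ i₀ → x (E j i) = y (E j i)) :
    x (E j i₀) = y (E j i₀) := by
  classical
  unfold par at h
  rw [← Finset.add_sum_erase _ _ (Finset.mem_univ i₀),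
    ← Finset.add_sum_erase (a := i₀) univ _ (Finset.mem_univ i₀)] at h
  have hs : ∑ i ∈ univ.erase i₀, (if x (E j i) then (1 : ZMod 2) else 0) =
      ∑ i ∈ univ.erase i₀, (if y (E j i) then (1 : ZMod 2) else 0) := by
    refine Finset.sum_congr rfl fun i hi => ?_
    rw [ho i (Finset.ne_of_mem_erase hi)]
  rw [hs] at h
  have h' := add_right_cancel h
  cases hx : x (E j i₀) <;> cases hy : y (E j i₀) <;> simp [hx, hy] at h' ⊢

/-- Overwrite `x` by the partial assignment `τ`. -/
def ext (τ : V → Option Bool) (x : V → Bool) : V → Bool := fun v => (τ v).getD (x v)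

variable {E : Fin m → Fin k → V} {β : Fin m → ZMod 2} {ρ : V → Option Bool} {s : ℕ}

omit [Fintype V] in
theorem supp_ext {Y : Finset V} {v : V} (hv : v ∈ Y) (τ : V → Option Bool) (P : Bool → Prop) :
    Supp Y fun x => P (ext τ x v) := by
  intro x x' hx h
  have : ext τ x v = ext τ x' v := by
    unfold ext
    rw [hx v hv]
  rw [← this]
  exact h

omit [Fintype V] in
theorem supp_eqAt (τ : V → Option Bool) (j : Fin m) :
    Supp (edge E j) fun x => EqAt E β j (ext τ x) := by
  intro x x' hx h
  unfold EqAt par at h ⊢
  rw [← h]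
  refine Finset.sum_congr rfl fun i _ => ?_
  have : ext τ x (E j i) = ext τ x' (E j i) := by
    unfold ext
    rw [hx _ (mem_edge E j i)]
  rw [this]

omit [Fintype V] in
theorem supp_eqAt' (j : Fin m) : Supp (edge E j) fun x => EqAt E β j x := by
  have := supp_eqAt (E := E) (β := β) (fun _ => none) j
  exact this

omit [Fintype V] in
theorem vars_negs (C : Clause V) : vars (negs C) = vars C := by
  unfold vars negs
  rw [Finset.image_image]
  rfl

theorem pr_loc {w : ℕ} (hE : Expand E ρ s) (hs : 2 * (2 * w + k) ≤ s) (hw1 : 1 ≤ w)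
    (hB : ∀ T : Finset V, T.Nonempty → 2 * T.card ≤ Fintype.card V →
      ∃ j, (univ.filter fun i => E j i ∈ T).card = 1)
    (hF : ∀ x : V → Bool, ∃ j, ¬ EqAt E β j x)
    {Γ : CNF V} (hΓ : ∀ C ∈ Γ, Good E β ρ s w C) (hFΓ : cnf E β ⊆ Γ)
    {C : Clause V} (hC : (vars C).card ≤ w) (h : PRed Γ C) :
    Loc E β ρ s fun x => Sat x C := by
  classical
  obtain ⟨τ, hτC, hτ⟩ := h
  have hm : 0 < m := by
    obtain ⟨j, _⟩ := hF (fun _ => false)
    exact lt_of_le_of_lt (Nat.zero_le _) j.2
  have hYc : ∀ j, 2 * (vars C ∪ edge E j).card ≤ s := by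
    intro j
    have h1 := Finset.card_union_le (vars C) (edge E j)
    have h2 := edge_card E j
    omega
  have hA : ∀ j, Supp (vars C ∪ edge E j) fun x => ¬ Sat x C :=
    fun j => (((supp_sat C).mono Finset.subset_union_left)).not
  have hsub : ∀ j, edge E j ⊆ vars C ∪ edge E j := fun j => Finset.subset_union_right
  -- step 1
  have step1 : ∀ j, Loc E β ρ s fun x => ¬ Sat x C → EqAt E β j (ext τ x) := by
    intro j
    have h1 : Loc E β ρ s fun x => ∀ a ∈ univ.filter (fun a : Fin k → Bool => bpar a ≠ β j),
        ¬ Sat x C → Sat (ext τ x) (clauseOf E j a) := by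
      refine Loc.all hE (hYc j) _ (fun a x => ¬ Sat x C → Sat (ext τ x) (clauseOf E j a)) ?_ ?_
      · intro a _
        refine (hA j).imp ?_
        rintro x x' hx ⟨l, hl, hh⟩
        refine ⟨l, hl, ?_⟩
        have hlv : l.1 ∈ vars C ∪ edge E j :=
          Finset.mem_union_right _ (vars_clauseOf E j a (mem_vars hl))
        rw [← hh]
        unfold ext
        rw [hx _ hlv]
      · intro a ha
        simp only [Finset.mem_filter, Finset.mem_univ, true_and] at ha
        by_cases ht : Taut (clauseOf E j a)
        · exact Loc.triv fun x _ _ => sat_of_taut ht _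
        · have hD : clauseOf E j a ∈ cnf E β := by
            unfold cnf
            refine Finset.mem_image.2 ⟨(j, a), ?_, rfl⟩
            simp only [Finset.mem_filter, Finset.mem_univ, true_and]
            exact ⟨ha, ht⟩
          rcases hτ _ (hFΓ hD) with ⟨l, hl, hl'⟩ | hc
          · refine Loc.triv fun x _ _ => ⟨l, hl, ?_⟩
            unfold ext
            rw [hl']
            rfl
          · have hU : (vars (negs C ∪ negs (restr τ (clauseOf E j a)))).card + w ≤ 2 * w + k := by
              have e1 : vars (negs C ∪ negs (restr τ (clauseOf E j a))) ⊆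
                  vars C ∪ edge E j := by
                intro v hv
                unfold vars at hv
                rw [Finset.image_union, Finset.mem_union] at hv
                rcases hv with hv | hv
                · change v ∈ vars (negs C) at hv
                  rw [vars_negs] at hv
                  exact Finset.mem_union_left _ hv
                · change v ∈ vars (negs (restr τ (clauseOf E j a))) at hv
                  rw [vars_negs] at hv
                  refine Finset.mem_union_right _ (vars_clauseOf E j a ?_)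
                  obtain ⟨l, hl, rfl⟩ := Finset.mem_image.1 hv
                  exact mem_vars (Finset.mem_filter.1 hl).1
              have e2 := Finset.card_le_card e1
              have h1 := Finset.card_union_le (vars C) (edge E j)
              have h2 := edge_card E j
              omega
            refine (conflict_loc hE hs hΓ hU hw1 hc).mono ?_
            intro x _ hx hsC
            by_contra hsD
            apply hx
            intro l hl
            rcases Finset.mem_union.1 hl with hl | hl
            · obtain ⟨l₀, hl₀, rfl⟩ := Finset.mem_image.1 hl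
              exact bool_ne_not fun he => hsC ⟨l₀, hl₀, he⟩
            · obtain ⟨l₀, hl₀, rfl⟩ := Finset.mem_image.1 hl
              obtain ⟨hl₁, hn⟩ := Finset.mem_filter.1 hl₀
              refine bool_ne_not fun he => hsD ⟨l₀, hl₁, ?_⟩
              unfold ext
              rw [hn]
              exact he
    refine h1.mono ?_
    intro x _ hx hsC
    rw [eqAt_iff]
    intro a ha
    exact hx a (by simp [ha]) hsC
  -- combination on one edge
  have comb : ∀ (j : Fin m) (I : Finset (Fin k)) (f : Fin k → (V → Bool) → Prop),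
      (∀ i ∈ I, Supp (vars C ∪ edge E j) (f i)) →
      (∀ i ∈ I, Loc E β ρ s fun x => ¬ Sat x C → f i x) →
      Loc E β ρ s fun x => ¬ Sat x C → EqAt E β j x ∧ EqAt E β j (ext τ x) ∧ ∀ i ∈ I, f i x := by
    intro j I f hf hl
    have h1 : Loc E β ρ s fun x => ∀ i ∈ I, ¬ Sat x C → f i x :=
      Loc.all hE (hYc j) I (fun i x => ¬ Sat x C → f i x) (fun i hi => (hA j).imp (hf i hi)) hl
    have hs1 : Supp (vars C ∪ edge E j) fun x => ∀ i ∈ I, ¬ Sat x C → f i x := by
      intro x x' hx hh i hi
      exact ((hA j).imp (hf i hi)) x x' hx (hh i hi)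
    have h2 : Loc E β ρ s fun x => EqAt E β j x := by
      refine ⟨{j}, ?_, fun x _ hx => hx j (Finset.mem_singleton_self j)⟩
      rw [Finset.card_singleton]
      omega
    have hs2 : Supp (vars C ∪ edge E j) fun x => EqAt E β j x := (supp_eqAt' j).mono (hsub j)
    have hs3 : Supp (vars C ∪ edge E j) fun x => ¬ Sat x C → EqAt E β j (ext τ x) :=
      (hA j).imp ((supp_eqAt τ j).mono (hsub j))
    have h3 := h2.and hE (hYc j) hs2 hs3 (step1 j)
    refine (h3.and hE (hYc j) (hs2.and hs3) hs1 h1).mono ?_
    intro x _ hx hsC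
    exact ⟨hx.1.1, hx.1.2 hsC, fun i hi => hx.2 i hi hsC⟩
  -- the set of variables which the witness really changes
  set T : Finset V := univ.filter fun v => ∃ b, τ v = some b ∧
    ¬ Loc E β ρ s fun x => ¬ Sat x C → x v = b with hT
  have hTno : ¬ (T.Nonempty ∧ 2 * T.card ≤ Fintype.card V) := by
    rintro ⟨hT1, hT2⟩
    obtain ⟨j, hj⟩ := hB T hT1 hT2
    obtain ⟨i₀, hi₀⟩ := Finset.card_eq_one.1 hj
    have hmem : E j i₀ ∈ T := by
      have : i₀ ∈ univ.filter fun i => E j i ∈ T := by rw [hi₀]; simp
      simpa using this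
    have hother : ∀ i, i ≠ i₀ → E j i ∉ T := by
      intro i hi hiT
      have : i ∈ univ.filter fun i => E j i ∈ T := by simpa using hiT
      rw [hi₀, Finset.mem_singleton] at this
      exact hi this
    have hc := comb j (univ.erase i₀) (fun i x => ext τ x (E j i) = x (E j i)) ?_ ?_
    · rw [hT, Finset.mem_filter] at hmem
      obtain ⟨-, b, hb, hnl⟩ := hmem
      apply hnl
      refine hc.mono ?_
      intro x _ hx hsC
      obtain ⟨h1, h2, h3⟩ := hx hsC
      have h4 := par_inj E j i₀ (x := ext τ x) (y := x) (by
        unfold EqAt at h1 h2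
        rw [h1, h2]) (fun i hi => h3 i (Finset.mem_erase.2 ⟨hi, Finset.mem_univ _⟩))
      rw [← h4]
      unfold ext
      rw [hb]
      rfl
    · intro i _ x x' hx hh
      have hv : E j i ∈ vars C ∪ edge E j := hsub j (mem_edge E j i)
      unfold ext at hh ⊢
      rw [hx _ hv] at hh
      exact hh
    · intro i hi
      have hiT := hother i (Finset.ne_of_mem_erase hi)
      cases hv : τ (E j i) with
      | none =>
        refine Loc.triv fun x _ _ => ?_
        unfold ext
        rw [hv]
        rfl
      | some b =>
        have : Loc E β ρ s fun x => ¬ Sat x C → x (E j i) = b := by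
          by_contra hn
          apply hiT
          rw [hT, Finset.mem_filter]
          exact ⟨Finset.mem_univ _, b, hv, hn⟩
        refine this.mono ?_
        intro x _ hx hsC
        unfold ext
        rw [hv, hx hsC]
        rfl
  by_cases hTe : T = ∅
  · -- the witness changes nothing
    obtain ⟨l, hl, hl'⟩ := hτC
    have : Loc E β ρ s fun x => ¬ Sat x C → x l.1 = l.2 := by
      by_contra hn
      have : l.1 ∈ T := by
        rw [hT, Finset.mem_filter]
        exact ⟨Finset.mem_univ _, l.2, hl', hn⟩
      rw [hTe] at this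
      exact absurd this (Finset.notMem_empty _)
    refine this.mono ?_
    intro x _ hx
    by_contra hsC
    exact hsC ⟨l, hl, hx hsC⟩
  · -- the witness changes more than half of the variables
    have hTne : T.Nonempty := Finset.nonempty_iff_ne_empty.2 hTe
    have hTbig : Fintype.card V < 2 * T.card := by
      by_contra hle
      exact hTno ⟨hTne, not_lt.1 hle⟩
    set Q : Finset V := univ.filter fun v => τ v = none ∧
      ¬ ∃ b, Loc E β ρ s fun x => ¬ Sat x C → x v = b with hQ
    have hdisj : Disjoint T Q := by
      rw [Finset.disjoint_left]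
      intro v hv1 hv2
      rw [hT, Finset.mem_filter] at hv1
      rw [hQ, Finset.mem_filter] at hv2
      obtain ⟨-, b, hb, -⟩ := hv1
      rw [hv2.2.1] at hb
      exact absurd hb (by simp)
    have hQc : 2 * Q.card ≤ Fintype.card V := by
      have h1 := Finset.card_union_of_disjoint hdisj
      have h2 : (T ∪ Q).card ≤ Fintype.card V := Finset.card_le_univ _
      omega
    have hnotQ : ∀ v, v ∉ Q → ∃ b, Loc E β ρ s fun x => ¬ Sat x C → ext τ x v = b := by
      intro v hv
      cases hτv : τ v with
      | none =>
        have : ∃ b, Loc E β ρ s fun x => ¬ Sat x C → x v = b := by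
          by_contra hn
          apply hv
          rw [hQ, Finset.mem_filter]
          exact ⟨Finset.mem_univ _, hτv, hn⟩
        obtain ⟨b, hb⟩ := this
        refine ⟨b, hb.mono ?_⟩
        intro x _ hx hsC
        unfold ext
        rw [hτv]
        exact hx hsC
      | some b =>
        refine ⟨b, Loc.triv fun x _ _ => ?_⟩
        unfold ext
        rw [hτv]
        rfl
    have hQe : Q = ∅ := by
      by_contra hQne
      obtain ⟨j, hj⟩ := hB Q (Finset.nonempty_iff_ne_empty.2 hQne) hQc
      obtain ⟨i₀, hi₀⟩ := Finset.card_eq_one.1 hj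
      have hmem : E j i₀ ∈ Q := by
        have : i₀ ∈ univ.filter fun i => E j i ∈ Q := by rw [hi₀]; simp
        simpa using this
      have hother : ∀ i, i ≠ i₀ → E j i ∉ Q := by
        intro i hi hiT
        have : i ∈ univ.filter fun i => E j i ∈ Q := by simpa using hiT
        rw [hi₀, Finset.mem_singleton] at this
        exact hi this
      have hch : ∀ i, ∃ b, i ≠ i₀ → Loc E β ρ s fun x => ¬ Sat x C → ext τ x (E j i) = b := by
        intro i
        by_cases hi : i = i₀
        · exact ⟨true, fun h => absurd hi h⟩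
        · obtain ⟨b, hb⟩ := hnotQ _ (hother i hi)
          exact ⟨b, fun _ => hb⟩
      choose b hb using hch
      have hc := comb j (univ.erase i₀) (fun i x => ext τ x (E j i) = b i) ?_ ?_
      · rw [hQ, Finset.mem_filter] at hmem
        obtain ⟨-, hnone, hnl⟩ := hmem
        apply hnl
        by_cases hex : ∃ x₀ : V → Bool, EqAt E β j (ext τ x₀) ∧
            ∀ i ∈ univ.erase i₀, ext τ x₀ (E j i) = b i
        · obtain ⟨x₀, h1, h2⟩ := hex
          refine ⟨ext τ x₀ (E j i₀), hc.mono ?_⟩
          intro x _ hx hsC
          obtain ⟨-, h3, h4⟩ := hx hsC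
          have h5 := par_inj E j i₀ (x := ext τ x) (y := ext τ x₀) (by
            unfold EqAt at h1 h3
            rw [h1, h3]) (fun i hi => by
              rw [h4 i (Finset.mem_erase.2 ⟨hi, Finset.mem_univ _⟩),
                h2 i (Finset.mem_erase.2 ⟨hi, Finset.mem_univ _⟩)])
          rw [← h5]
          unfold ext
          rw [hnone]
          rfl
        · refine ⟨true, hc.mono ?_⟩
          intro x _ hx hsC
          obtain ⟨-, h3, h4⟩ := hx hsC
          exact absurd ⟨x, h3, h4⟩ hex
      · intro i _
        exact supp_ext (hsub j (mem_edge E j i)) τ (fun c => c = b i)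
      · intro i hi
        exact hb i (Finset.ne_of_mem_erase hi)
    have hall : ∀ v, ∃ b, Loc E β ρ s fun x => ¬ Sat x C → ext τ x v = b := by
      intro v
      refine hnotQ v ?_
      rw [hQe]
      exact Finset.notMem_empty v
    choose z hz using hall
    obtain ⟨j, hj⟩ := hF z
    have hc := comb j univ (fun i x => ext τ x (E j i) = z (E j i)) ?_ ?_
    · refine hc.mono ?_
      intro x _ hx
      by_contra hsC
      obtain ⟨-, h3, h4⟩ := hx hsC
      apply hj
      unfold EqAt par at h3 ⊢
      rw [← h3]
      refine Finset.sum_congr rfl fun i _ => ?_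
      rw [h4 i (Finset.mem_univ i)]
    · intro i _
      exact supp_ext (hsub j (mem_edge E j i)) τ (fun c => c = z (E j i))
    · intro i _
      exact hz _

end Step

end Pool.Agent.PR
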