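import Mathlib
import Pool.Agent.Lib_helper80.PR.Step

/-!
# No derivation of the empty clause under a good restriction; expansion
-/

namespace Pool.Agent.PR

open Finset

section Deriv

variable {V : Type*} [DecidableEq V] [Fintype V] {m k : ℕ}
variable {E : Fin m → Fin k → V} {β : Fin m → ZMod 2} {ρ : V → Option Bool} {s : ℕ}

theorem derives_good {w : ℕ} (hE : Expand E ρ s) (hs : 2 * (2 * w + k) ≤ s) (hw1 : 1 ≤ w)
    (hkw : k ≤ w)
    (hB : ∀ T : Finset V, T.Nonempty → 2 * T.card ≤ Fintype.card V →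
      ∃ j, (univ.filter fun i => E j i ∈ T).card = 1)
    (hF : ∀ x : V → Bool, ∃ j, ¬ EqAt E β j x)
    {L : List (Clause V)} {Γ : CNF V} (h : Derives (cnf E β) L Γ)
    (hL : ∀ C ∈ L, TSat ρ C ∨ (vars C).card ≤ w) :
    cnf E β ⊆ Γ ∧ ∀ C ∈ Γ, Good E β ρ s w C := by
  classical
  induction h with
  | start =>
    refine ⟨subset_rfl, fun C hC => ?_⟩
    obtain ⟨j, a, rfl, ha, -⟩ := mem_cnf hC
    right
    constructor
    · exact ((Finset.card_le_card (vars_clauseOf E j a)).trans (edge_card E j)).trans hkw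
    · refine ⟨{j}, ?_, fun x _ hx => ?_⟩
      · rw [Finset.card_singleton]; omega
      · exact (eqAt_iff E β j x).1 (hx j (Finset.mem_singleton_self j)) a ha
  | @rup L Γ C _ hR ih =>
    obtain ⟨h1, h2⟩ := ih fun D hD => hL D (List.mem_cons_of_mem _ hD)
    refine ⟨h1.trans (Finset.subset_insert _ _), fun D hD => ?_⟩
    rcases Finset.mem_insert.1 hD with rfl | hD
    · rcases hL D List.mem_cons_self with hr | hw
      · exact Or.inl hr
      · right
        refine ⟨hw, ?_⟩
        refine (conflict_loc (W := 2 * w + k) hE hs h2 ?_ hw1 hR).mono ?_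
        · rw [vars_negs]; omega
        · intro x _ hx
          by_contra hsat
          apply hx
          intro l hl
          obtain ⟨l₀, hl₀, rfl⟩ := Finset.mem_image.1 hl
          exact bool_ne_not fun he => hsat ⟨l₀, hl₀, he⟩
    · exact h2 D hD
  | @pr L Γ C _ hR ih =>
    obtain ⟨h1, h2⟩ := ih fun D hD => hL D (List.mem_cons_of_mem _ hD)
    refine ⟨h1.trans (Finset.subset_insert _ _), fun D hD => ?_⟩
    rcases Finset.mem_insert.1 hD with rfl | hD
    · rcases hL D List.mem_cons_self with hr | hw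
      · exact Or.inl hr
      · exact Or.inr ⟨hw, pr_loc hE hs hw1 hB hF h2 h1 hw hR⟩
    · exact h2 D hD
  | @del L Γ Δ _ hd1 hd2 ih =>
    obtain ⟨h1, h2⟩ := ih hL
    exact ⟨hd1, fun C hC => h2 C (hd2 hC)⟩

omit [DecidableEq V] in
theorem not_good_empty [DecidableEq V] {w : ℕ} (hE : Expand E ρ s) :
    ¬ Good E β ρ s w (∅ : Clause V) := by
  rintro (⟨l, hl, -⟩ | ⟨-, h⟩)
  · exact absurd hl (Finset.notMem_empty _)
  · have h0 : Supp (∅ : Finset V) fun x => Sat x (∅ : Clause V) := by
      rintro x x' _ ⟨l, hl, -⟩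
      exact absurd hl (Finset.notMem_empty _)
    obtain ⟨G, hG, h⟩ := h.min hE h0
    have hG0 : G = ∅ := by
      rw [Finset.card_empty] at hG
      exact Finset.card_eq_zero.1 (Nat.le_zero.1 hG)
    subst hG0
    obtain ⟨l, hl, -⟩ := h (fun v => (ρ v).getD false) (by
      intro v b hv
      show (ρ v).getD false = b
      rw [hv]; rfl) (fun j hj => absurd hj (Finset.notMem_empty _))
    exact absurd hl (Finset.notMem_empty _)

theorem no_refutation {w : ℕ} (hE : Expand E ρ s) (hs : 2 * (2 * w + k) ≤ s) (hw1 : 1 ≤ w)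
    (hkw : k ≤ w)
    (hB : ∀ T : Finset V, T.Nonempty → 2 * T.card ≤ Fintype.card V →
      ∃ j, (univ.filter fun i => E j i ∈ T).card = 1)
    (hF : ∀ x : V → Bool, ∃ j, ¬ EqAt E β j x)
    {L : List (Clause V)} {Γ : CNF V} (h : Derives (cnf E β) L Γ)
    (hL : ∀ C ∈ L, TSat ρ C ∨ (vars C).card ≤ w) : (∅ : Clause V) ∉ Γ :=
  fun h0 => not_good_empty hE ((derives_good hE hs hw1 hkw hB hF h hL).2 _ h0)

/-- Expansion of the restricted hypergraph from expansion of the hypergraph. -/
theorem expand_of {c : ℕ}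
    (hA : ∀ G : Finset (Fin m), G.card ≤ s → c * G.card ≤ (G.biUnion (edge E)).card)
    (hρ : ∀ j, ((edge E j).filter fun v => ρ v ≠ none).card + k + 1 ≤ 2 * c) :
    Expand E ρ s := by
  classical
  intro G hG
  set U := G.biUnion (edge E) with hU
  set inc : V → ℕ := fun v =>
    ((G ×ˢ (univ : Finset (Fin k))).filter fun p => E p.1 p.2 = v).card with hinc
  set N1 := U.filter fun v => inc v = 1 with hN1
  have hsum : ∑ v ∈ U, inc v = G.card * k := by
    have : (G ×ˢ (univ : Finset (Fin k))).card = ∑ v ∈ U, inc v := by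
      refine Finset.card_eq_sum_card_fiberwise (f := fun p : Fin m × Fin k => E p.1 p.2) ?_
      intro p hp
      simp only [Finset.coe_product, Set.mem_prod, Finset.mem_coe] at hp
      exact Finset.mem_biUnion.2 ⟨p.1, hp.1, mem_edge E p.1 p.2⟩
    rw [← this, Finset.card_product]
    simp
  have hpos : ∀ v ∈ U, 1 ≤ inc v := by
    intro v hv
    obtain ⟨j, hj, hv⟩ := Finset.mem_biUnion.1 hv
    obtain ⟨i, _, rfl⟩ := Finset.mem_image.1 hv
    refine Finset.card_pos.2 ⟨(j, i), ?_⟩
    simp [hj]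
  have h2 : 2 * U.card ≤ G.card * k + N1.card := by
    have : ∑ v ∈ U, 2 ≤ ∑ v ∈ U, (inc v + if inc v = 1 then 1 else 0) := by
      refine Finset.sum_le_sum fun v hv => ?_
      have := hpos v hv
      split_ifs <;> omega
    rw [Finset.sum_const, smul_eq_mul, Finset.sum_add_distrib, hsum, ← Finset.card_filter] at this
    have h' : U.card * 2 ≤ G.card * k + N1.card := this
    omega
  have h3 : c * G.card ≤ U.card := hA G hG
  -- set vertices
  set Z := U.filter fun v => ρ v ≠ none with hZ
  have hZc : Z.card ≤ ∑ j ∈ G, ((edge E j).filter fun v => ρ v ≠ none).card := by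
    rw [hZ, hU, Finset.filter_biUnion]
    exact Finset.card_biUnion_le
  have hZ2 : Z.card + G.card * (k + 1) ≤ G.card * (2 * c) := by
    have h4 : ∑ j ∈ G, (((edge E j).filter fun v => ρ v ≠ none).card + (k + 1)) ≤
        ∑ j ∈ G, 2 * c := by
      refine Finset.sum_le_sum fun j _ => ?_
      have := hρ j
      omega
    rw [Finset.sum_add_distrib, Finset.sum_const, Finset.sum_const, smul_eq_mul,
      smul_eq_mul] at h4
    omega
  have hsubs : N1 \ Z ⊆ once E ρ G := by
    intro v hv
    rw [Finset.mem_sdiff, hN1, Finset.mem_filter, hZ, Finset.mem_filter] at hv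
    obtain ⟨⟨hvU, hv1⟩, hvZ⟩ := hv
    rw [once, Finset.mem_filter]
    refine ⟨Finset.mem_univ _, ?_, hv1⟩
    by_contra hne
    exact hvZ ⟨hvU, hne⟩
  have h5 : N1.card ≤ (once E ρ G).card + Z.card := by
    have := Finset.card_le_card hsubs
    have h6 : N1.card ≤ (N1 \ Z).card + Z.card := by
      have := Finset.card_le_card_sdiff_add_card (s := N1) (t := Z)
      omega
    omega
  have h7 : G.card * (k + 1) = G.card * k + G.card := by ring
  have h8 : G.card * (2 * c) = 2 * (c * G.card) := by ring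
  omega

end Deriv

end Pool.Agent.PR
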