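import Mathlib

/-!
# Fractions of finite sets
-/

namespace Pool.Agent.PR

open Finset

section Fr

open Classical in
/-- The fraction of the elements of the finite type `Ω` with property `p`. -/
noncomputable def fr {Ω : Type*} [Fintype Ω] (p : Ω → Prop) : ℝ :=
  ((univ.filter p).card : ℝ) / (Fintype.card Ω : ℝ)

variable {Ω : Type*} [Fintype Ω]

theorem fr_eq (p : Ω → Prop) [DecidablePred p] :
    fr p = ((univ.filter p).card : ℝ) / (Fintype.card Ω : ℝ) := by
  unfold fr
  congr

theorem fr_nonneg (p : Ω → Prop) : 0 ≤ fr p := by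
  unfold fr; positivity

theorem fr_mono {p q : Ω → Prop} (h : ∀ ω, p ω → q ω) : fr p ≤ fr q := by
  classical
  rw [fr_eq p, fr_eq q]
  have : (univ.filter p).card ≤ (univ.filter q).card := by
    refine Finset.card_le_card fun ω hω => ?_
    simp only [Finset.mem_filter, Finset.mem_univ, true_and] at hω ⊢
    exact h ω hω
  gcongr

theorem fr_congr {p q : Ω → Prop} (h : ∀ ω, p ω ↔ q ω) : fr p = fr q :=
  le_antisymm (fr_mono fun ω => (h ω).1) (fr_mono fun ω => (h ω).2)

theorem fr_le_one (p : Ω → Prop) : fr p ≤ 1 := by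
  classical
  rw [fr_eq p]
  apply div_le_one_of_le₀ _ (by positivity)
  exact_mod_cast Finset.card_le_univ _

theorem exists_not_of_fr_lt [Nonempty Ω] {p : Ω → Prop} (h : fr p < 1) : ∃ ω, ¬ p ω := by
  classical
  by_contra hn
  push Not at hn
  rw [fr_eq p] at h
  have : (univ.filter p) = univ := Finset.filter_true_of_mem fun ω _ => hn ω
  rw [this, Finset.card_univ, div_self] at h
  · exact lt_irrefl _ h
  · exact_mod_cast Fintype.card_ne_zero

theorem fr_or_le (p q : Ω → Prop) : fr (fun ω => p ω ∨ q ω) ≤ fr p + fr q := by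
  classical
  rw [fr_eq p, fr_eq q, fr_eq, ← add_div]
  gcongr
  have : (univ.filter fun ω => p ω ∨ q ω).card ≤ (univ.filter p).card + (univ.filter q).card := by
    rw [Finset.filter_or]
    exact Finset.card_union_le _ _
  exact_mod_cast this

theorem fr_exists_le {ι : Type*} (I : Finset ι) (p : ι → Ω → Prop) :
    fr (fun ω => ∃ i ∈ I, p i ω) ≤ ∑ i ∈ I, fr (p i) := by
  classical
  induction I using Finset.induction_on with
  | empty =>
    rw [Finset.sum_empty, fr_eq]
    simp
  | insert a I ha ih =>
    rw [Finset.sum_insert ha]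
    refine le_trans ?_ (add_le_add le_rfl ih)
    refine le_trans (fr_mono ?_) (fr_or_le _ _)
    rintro ω ⟨i, hi, h⟩
    rcases Finset.mem_insert.1 hi with rfl | hi
    · exact Or.inl h
    · exact Or.inr ⟨i, hi, h⟩

theorem fr_pi {ι X : Type*} [Fintype ι] [DecidableEq ι] [Fintype X] (q : ι → X → Prop) :
    fr (fun f : ι → X => ∀ i, q i (f i)) = ∏ i, fr (q i) := by
  classical
  rw [fr_eq]
  simp_rw [fr_eq]
  rw [Finset.prod_div_distrib]
  congr 1
  · have : (univ.filter fun f : ι → X => ∀ i, q i (f i)) =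
        Fintype.piFinset fun i => univ.filter (q i) := by
      ext f
      simp [Fintype.mem_piFinset]
    rw [this, Fintype.card_piFinset]
    push_cast
    rfl
  · rw [Fintype.card_fun, Finset.prod_const, Finset.card_univ]
    push_cast
    rfl

theorem fr_true [Nonempty Ω] : fr (fun _ : Ω => True) = 1 := by
  classical
  rw [fr_eq, Finset.filter_true_of_mem (fun _ _ => trivial), Finset.card_univ, div_self]
  exact_mod_cast Fintype.card_ne_zero

theorem fr_not [Nonempty Ω] (p : Ω → Prop) : fr (fun ω => ¬ p ω) = 1 - fr p := by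
  classical
  rw [fr_eq p, fr_eq]
  have h : (univ.filter p).card + (univ.filter fun ω => ¬ p ω).card = Fintype.card Ω := by
    rw [Finset.card_filter_add_card_filter_not, Finset.card_univ]
  have h0 : (Fintype.card Ω : ℝ) ≠ 0 := by exact_mod_cast Fintype.card_ne_zero
  have h' : ((univ.filter p).card : ℝ) + ((univ.filter fun ω => ¬ p ω).card : ℝ) =
      (Fintype.card Ω : ℝ) := by exact_mod_cast h
  rw [eq_sub_iff_add_eq, ← add_div, add_comm, h', div_self h0]

theorem fr_mem [DecidableEq Ω] (T : Finset Ω) :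
    fr (fun ω => ω ∈ T) = (T.card : ℝ) / (Fintype.card Ω : ℝ) := by
  classical
  rw [fr_eq]
  congr 2
  congr 1
  ext ω; simp

end Fr

end Pool.Agent.PR
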