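import Mathlib
import Pool.Agent.Lib_helper80.PR.Deriv
import Pool.Agent.Lib_helper80.PR.Fr

/-!
# Existence of the hypergraph and of the restriction, by counting
-/

namespace Pool.Agent.PR

open Finset

section Hyp

theorem sum_pow_le (N : ℕ) {y : ℝ} (hy : 0 ≤ y) {α : Type*} [Fintype α] [DecidableEq α]
    (hN : Fintype.card α = N) :
    ∑ T ∈ (univ : Finset (Finset α)).filter (fun T => T.Nonempty), y ^ T.card ≤
      Real.exp (N * y) - 1 := by
  have h1 : ∑ T ∈ (univ : Finset α).powerset, y ^ T.card * 1 ^ ((univ : Finset α).card - T.card) =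
      (y + 1) ^ (univ : Finset α).card := Finset.sum_pow_mul_eq_add_pow y 1 univ
  have h2 : ∑ T : Finset α, y ^ T.card = (y + 1) ^ N := by
    rw [← hN, ← Finset.card_univ, ← h1, Finset.powerset_univ]
    refine Finset.sum_congr rfl fun T _ => ?_
    rw [one_pow, mul_one]
  have h3 : ∑ T : Finset α, y ^ T.card =
      ∑ T ∈ (univ : Finset (Finset α)).filter (fun T => T.Nonempty), y ^ T.card + 1 := by
    rw [← Finset.sum_filter_add_sum_filter_not univ (fun T : Finset α => T.Nonempty)]
    congr 1
    have : (univ : Finset (Finset α)).filter (fun T => ¬ T.Nonempty) = {∅} := by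
      ext T
      simp [Finset.not_nonempty_iff_eq_empty]
    rw [this, Finset.sum_singleton, Finset.card_empty, pow_zero]
  have h4 : (y + 1) ^ N ≤ Real.exp (N * y) := by
    rw [Real.exp_nat_mul]
    exact pow_le_pow_left₀ (by linarith) (Real.add_one_le_exp y) N
  linarith

variable {V : Type*} [DecidableEq V] [Fintype V] {m k : ℕ}

/-- An edge meets `T` exactly once with a substantial probability. -/
theorem fr_once_ge [Nonempty V] (T : Finset V) (hT : 2 * T.card ≤ Fintype.card V) :
    (T.card : ℝ) / Fintype.card V * (1 / 2) ^ k ≤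
      fr fun e : Fin (k + 1) → V => (univ.filter fun i => e i ∈ T).card = 1 := by
  classical
  have hn : (0 : ℝ) < Fintype.card V := by exact_mod_cast Fintype.card_pos
  have h1 : fr (fun e : Fin (k + 1) → V => ∀ i, if i = 0 then e i ∈ T else ¬ e i ∈ T) ≤
      fr fun e : Fin (k + 1) → V => (univ.filter fun i => e i ∈ T).card = 1 := by
    refine fr_mono fun e he => ?_
    rw [Finset.card_eq_one]
    refine ⟨0, ?_⟩
    ext i
    simp only [Finset.mem_filter, Finset.mem_univ, true_and, Finset.mem_singleton]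
    constructor
    · intro hi
      by_contra h0
      have := he i
      rw [if_neg h0] at this
      exact this hi
    · rintro rfl
      have := he 0
      rw [if_pos rfl] at this
      exact this
  refine le_trans ?_ h1
  rw [fr_pi (fun i v => if i = 0 then v ∈ T else ¬ v ∈ T), Fin.prod_univ_succ]
  have h2 : fr (fun v : V => if (0 : Fin (k + 1)) = 0 then v ∈ T else ¬ v ∈ T) =
      (T.card : ℝ) / Fintype.card V := by
    rw [← fr_mem]
    exact fr_congr fun v => by rw [if_pos rfl]
  have h3 : ∀ i : Fin k, fr (fun v : V => if (Fin.succ i) = 0 then v ∈ T else ¬ v ∈ T) =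
      1 - (T.card : ℝ) / Fintype.card V := by
    intro i
    rw [← fr_mem, ← fr_not]
    exact fr_congr fun v => by rw [if_neg (Fin.succ_ne_zero i)]
  rw [h2]
  simp_rw [h3]
  rw [Finset.prod_const, Finset.card_univ, Fintype.card_fin]
  refine mul_le_mul_of_nonneg_left ?_ (by positivity)
  refine pow_le_pow_left₀ (by norm_num) ?_ k
  have h4 : (T.card : ℝ) / Fintype.card V ≤ 1 / 2 := by
    rw [div_le_div_iff₀ hn (by norm_num)]
    have : (2 * T.card : ℝ) ≤ Fintype.card V := by exact_mod_cast hT
    linarith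
  linarith

theorem fr_bad_T [Nonempty V] (T : Finset V) (hT : 2 * T.card ≤ Fintype.card V) :
    fr (fun E : Fin m → Fin (k + 1) → V =>
      ∀ j, ¬ (univ.filter fun i => E j i ∈ T).card = 1) ≤
      Real.exp (-((m : ℝ) / (Fintype.card V * 2 ^ k))) ^ T.card := by
  classical
  have hn : (0 : ℝ) < Fintype.card V := by exact_mod_cast Fintype.card_pos
  rw [fr_pi (fun (_ : Fin m) (e : Fin (k + 1) → V) =>
    ¬ (univ.filter fun i => e i ∈ T).card = 1)]
  rw [Finset.prod_const, Finset.card_univ, Fintype.card_fin, fr_not]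
  have h1 := fr_once_ge (k := k) T hT
  have h2 : 1 - fr (fun e : Fin (k + 1) → V => (univ.filter fun i => e i ∈ T).card = 1) ≤
      Real.exp (-((T.card : ℝ) / Fintype.card V * (1 / 2) ^ k)) := by
    have := Real.add_one_le_exp (-((T.card : ℝ) / Fintype.card V * (1 / 2) ^ k))
    linarith
  have h0 : 0 ≤ 1 - fr (fun e : Fin (k + 1) → V => (univ.filter fun i => e i ∈ T).card = 1) := by
    have := fr_le_one (fun e : Fin (k + 1) → V => (univ.filter fun i => e i ∈ T).card = 1)
    linarith
  refine (pow_le_pow_left₀ h0 h2 m).trans (le_of_eq ?_)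
  rw [← Real.exp_nat_mul, ← Real.exp_nat_mul]
  congr 1
  rw [one_div, inv_pow]
  field_simp

theorem fr_bad_J [Nonempty V] (c s : ℕ) (J : Finset (Fin m)) (hJ : J.card ≤ s) :
    fr (fun E : Fin m → Fin k → V => (J.biUnion (edge E)).card < c * J.card) ≤
      ((Fintype.card V : ℝ) ^ c * ((c * s : ℕ) / Fintype.card V : ℝ) ^ k) ^ J.card := by
  classical
  have hn : (0 : ℝ) < Fintype.card V := by exact_mod_cast Fintype.card_pos
  have v₀ : V := Classical.arbitrary V
  have h1 : fr (fun E : Fin m → Fin k → V => (J.biUnion (edge E)).card < c * J.card) ≤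
      fr (fun E : Fin m → Fin k → V => ∃ g ∈ (univ : Finset (Fin (c * J.card) → V)),
        ∀ j i, j ∈ J → E j i ∈ univ.image g) := by
    refine fr_mono fun E hE => ?_
    set U := J.biUnion (edge E) with hU
    refine ⟨fun a => if h : a.1 < U.card then (U.equivFin.symm ⟨a.1, h⟩).1 else v₀,
      Finset.mem_univ _, ?_⟩
    intro j i hj
    have hm : E j i ∈ U := Finset.mem_biUnion.2 ⟨j, hj, mem_edge E j i⟩
    set b := U.equivFin ⟨E j i, hm⟩ with hb
    refine Finset.mem_image.2 ⟨⟨b.1, lt_trans b.2 hE⟩, Finset.mem_univ _, ?_⟩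
    simp only [Fin.is_lt, dite_true, Fin.eta]
    rw [hb, Equiv.symm_apply_apply]
  refine h1.trans ((fr_exists_le _ _).trans ?_)
  have h2 : ∀ g ∈ (univ : Finset (Fin (c * J.card) → V)),
      fr (fun E : Fin m → Fin k → V => ∀ j i, j ∈ J → E j i ∈ univ.image g) ≤
        (((c * s : ℕ) / Fintype.card V : ℝ) ^ k) ^ J.card := by
    intro g _
    rw [fr_pi (fun j (e : Fin k → V) => ∀ i, j ∈ J → e i ∈ univ.image g)]
    have h3 : ∀ j, fr (fun e : Fin k → V => ∀ i, j ∈ J → e i ∈ univ.image g) ≤
        if j ∈ J then ((c * s : ℕ) / Fintype.card V : ℝ) ^ k else 1 := by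
      intro j
      split_ifs with hj
      · rw [fr_pi (fun (_ : Fin k) (v : V) => j ∈ J → v ∈ univ.image g), Finset.prod_const,
          Finset.card_univ, Fintype.card_fin]
        refine pow_le_pow_left₀ (fr_nonneg _) ?_ k
        have h4 : fr (fun v : V => j ∈ J → v ∈ univ.image g) =
            ((univ.image g).card : ℝ) / Fintype.card V := by
          rw [← fr_mem]
          exact fr_congr fun v => by simp [hj]
        rw [h4]
        gcongr
        refine Finset.card_image_le.trans ?_
        rw [Finset.card_univ, Fintype.card_fin]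
        exact Nat.mul_le_mul_left c hJ
      · exact fr_le_one _
    refine (Finset.prod_le_prod (fun j _ => fr_nonneg _) (fun j _ => h3 j)).trans (le_of_eq ?_)
    rw [Finset.prod_ite, Finset.prod_const_one, mul_one, Finset.prod_const]
    congr 2
    ext j; simp
  refine (Finset.sum_le_sum h2).trans (le_of_eq ?_)
  rw [Finset.sum_const, Finset.card_univ, Fintype.card_fun, Fintype.card_fin, nsmul_eq_mul,
    mul_pow, Nat.cast_pow, pow_mul]

/-- Existence of the hypergraph. -/
theorem hyp_exists [Nonempty V] (c s : ℕ)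
    (hnum : (Real.exp (Fintype.card V *
        Real.exp (-((m : ℝ) / (Fintype.card V * 2 ^ k)))) - 1) +
      (Real.exp (m * ((Fintype.card V : ℝ) ^ c *
        ((c * s : ℕ) / Fintype.card V : ℝ) ^ (k + 1))) - 1) < 1) :
    ∃ E : Fin m → Fin (k + 1) → V,
      (∀ G : Finset (Fin m), G.card ≤ s → c * G.card ≤ (G.biUnion (edge E)).card) ∧
      (∀ T : Finset V, T.Nonempty → 2 * T.card ≤ Fintype.card V →
        ∃ j, (univ.filter fun i => E j i ∈ T).card = 1) := by
  classical
  have hb1 : fr (fun E : Fin m → Fin (k + 1) → V =>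
      ∃ T ∈ (univ : Finset (Finset V)).filter (fun T => T.Nonempty ∧ 2 * T.card ≤ Fintype.card V),
        ∀ j, ¬ (univ.filter fun i => E j i ∈ T).card = 1) ≤
      Real.exp (Fintype.card V * Real.exp (-((m : ℝ) / (Fintype.card V * 2 ^ k)))) - 1 := by
    refine (fr_exists_le _ _).trans ?_
    refine le_trans ?_ (sum_pow_le (Fintype.card V) (Real.exp_pos _).le rfl)
    refine le_trans (Finset.sum_le_sum fun T hT => ?_)
      (Finset.sum_le_sum_of_subset_of_nonneg (t := univ.filter fun T : Finset V => T.Nonempty)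
        ?_ fun T _ _ => by positivity)
    · exact fr_bad_T T (Finset.mem_filter.1 hT).2.2
    · intro T hT
      exact Finset.mem_filter.2 ⟨Finset.mem_univ _, (Finset.mem_filter.1 hT).2.1⟩
  have hb2 : fr (fun E : Fin m → Fin (k + 1) → V =>
      ∃ J ∈ (univ : Finset (Finset (Fin m))).filter (fun J => J.Nonempty ∧ J.card ≤ s),
        (J.biUnion (edge E)).card < c * J.card) ≤
      Real.exp (m * ((Fintype.card V : ℝ) ^ c *
        ((c * s : ℕ) / Fintype.card V : ℝ) ^ (k + 1))) - 1 := by
    refine (fr_exists_le _ _).trans ?_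
    refine le_trans ?_ (sum_pow_le m (by positivity) (Fintype.card_fin m))
    refine le_trans (Finset.sum_le_sum fun J hJ => ?_)
      (Finset.sum_le_sum_of_subset_of_nonneg (t := univ.filter fun J : Finset (Fin m) => J.Nonempty)
        ?_ fun J _ _ => by positivity)
    · exact fr_bad_J c s J (Finset.mem_filter.1 hJ).2.2
    · intro J hJ
      exact Finset.mem_filter.2 ⟨Finset.mem_univ _, (Finset.mem_filter.1 hJ).2.1⟩
  obtain ⟨E, hE⟩ := exists_not_of_fr_lt (lt_of_le_of_lt ((fr_or_le _ _).trans
    (add_le_add hb1 hb2)) hnum)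
  push Not at hE
  obtain ⟨h1, h2⟩ := hE
  refine ⟨E, ?_, ?_⟩
  · intro G hG
    rcases G.eq_empty_or_nonempty with rfl | hne
    · simp
    · exact h2 G (Finset.mem_filter.2 ⟨Finset.mem_univ _, hne, hG⟩)
  · intro T hT hT2
    exact h1 T (Finset.mem_filter.2 ⟨Finset.mem_univ _, hT, hT2⟩)

/-- The right-hand sides can be chosen so that the system has no solution. -/
theorem beta_exists (E : Fin m → Fin k → V) (h : Fintype.card V < m) :
    ∃ β : Fin m → ZMod 2, ∀ x : V → Bool, ∃ j, ¬ EqAt E β j x := by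
  classical
  have hns : ¬ Function.Surjective fun (x : V → Bool) (j : Fin m) => par E j x := by
    intro hs
    have := Fintype.card_le_of_surjective _ hs
    rw [Fintype.card_fun, Fintype.card_fun, Fintype.card_bool, Fintype.card_fin, ZMod.card] at this
    exact absurd (Nat.pow_lt_pow_right (by norm_num) h) (not_lt.2 this)
  unfold Function.Surjective at hns
  push Not at hns
  obtain ⟨β, hβ⟩ := hns
  refine ⟨β, fun x => ?_⟩
  have := hβ x
  by_contra hn
  push Not at hn
  exact this (funext hn)

/-- Values of the random restriction. -/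
def code {M : ℕ} (a : Fin M) : Option Bool :=
  if a.1 = 0 then some false else if a.1 = 1 then some true else none

theorem fr_code_ne {M : ℕ} (hM : 2 ≤ M) (b : Bool) :
    fr (fun a : Fin M => ¬ code a = some b) ≤ Real.exp (-(1 / M : ℝ)) := by
  classical
  have : Nonempty (Fin M) := ⟨⟨0, by omega⟩⟩
  rw [fr_not]
  have h1 : (1 / M : ℝ) ≤ fr (fun a : Fin M => code a = some b) := by
    have h2 : fr (fun a : Fin M => a ∈ ({if b then ⟨1, by omega⟩ else ⟨0, by omega⟩} :
        Finset (Fin M))) ≤ fr (fun a : Fin M => code a = some b) := by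
      refine fr_mono fun a ha => ?_
      rw [Finset.mem_singleton] at ha
      subst ha
      cases b <;> simp [code]
    rw [fr_mem, Finset.card_singleton, Fintype.card_fin] at h2
    simpa using h2
  have := Real.add_one_le_exp (-(1 / M : ℝ))
  linarith

theorem fr_code_set {M : ℕ} (hM : 2 ≤ M) :
    fr (fun a : Fin M => code a ≠ none) ≤ 2 / M := by
  classical
  have h2 : fr (fun a : Fin M => code a ≠ none) ≤
      fr (fun a : Fin M => a ∈ ({⟨0, by omega⟩, ⟨1, by omega⟩} : Finset (Fin M))) := by
    refine fr_mono fun a ha => ?_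
    unfold code at ha
    split_ifs at ha with h0 h1
    · simp [Fin.ext_iff, h0]
    · simp [Fin.ext_iff, h1]
    · exact absurd rfl ha
  refine h2.trans ?_
  rw [fr_mem, Fintype.card_fin]
  gcongr
  have := Finset.card_le_two (a := (⟨0, by omega⟩ : Fin M)) (b := ⟨1, by omega⟩)
  exact_mod_cast this

theorem fr_clause {M : ℕ} (hM : 2 ≤ M) (C : Clause V) :
    fr (fun r : V → Fin M => ¬ TSat (fun v => code (r v)) C) ≤
      Real.exp (-(1 / M : ℝ)) ^ (vars C).card := by
  classical
  have hch : ∀ v, ∃ b, v ∈ vars C → (v, b) ∈ C := by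
    intro v
    by_cases hv : v ∈ vars C
    · obtain ⟨l, hl, rfl⟩ := Finset.mem_image.1 hv
      exact ⟨l.2, fun _ => hl⟩
    · exact ⟨true, fun h => absurd h hv⟩
  choose b hb using hch
  have h1 : fr (fun r : V → Fin M => ¬ TSat (fun v => code (r v)) C) ≤
      fr (fun r : V → Fin M => ∀ v, v ∈ vars C → ¬ code (r v) = some (b v)) := by
    refine fr_mono fun r hr v hv h => hr ⟨(v, b v), hb v hv, h⟩
  refine h1.trans ?_
  rw [fr_pi (fun v (a : Fin M) => v ∈ vars C → ¬ code a = some (b v))]
  have h3 : ∀ v, fr (fun a : Fin M => v ∈ vars C → ¬ code a = some (b v)) ≤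
      if v ∈ vars C then Real.exp (-(1 / M : ℝ)) else 1 := by
    intro v
    split_ifs with hv
    · refine le_trans (fr_mono fun a ha => ha hv) (fr_code_ne hM (b v))
    · exact fr_le_one _
  refine (Finset.prod_le_prod (fun v _ => fr_nonneg _) (fun v _ => h3 v)).trans (le_of_eq ?_)
  rw [Finset.prod_ite, Finset.prod_const_one, mul_one, Finset.prod_const]
  congr 2
  ext v; simp

theorem fr_edge {M : ℕ} (hM : 2 ≤ M) (q : ℕ) (e : Finset V) :
    fr (fun r : V → Fin M => q ≤ (e.filter fun v => code (r v) ≠ none).card) ≤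
      2 ^ e.card * (2 / M : ℝ) ^ q := by
  classical
  have h1 : fr (fun r : V → Fin M => q ≤ (e.filter fun v => code (r v) ≠ none).card) ≤
      fr (fun r : V → Fin M => ∃ P ∈ e.powersetCard q, ∀ v, v ∈ P → code (r v) ≠ none) := by
    refine fr_mono fun r hr => ?_
    obtain ⟨P, hP, hc⟩ := Finset.exists_subset_card_eq hr
    refine ⟨P, Finset.mem_powersetCard.2 ⟨hP.trans (Finset.filter_subset _ _), hc⟩, ?_⟩
    intro v hv
    exact (Finset.mem_filter.1 (hP hv)).2
  refine h1.trans ((fr_exists_le _ _).trans ?_)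
  have h2 : ∀ P ∈ e.powersetCard q,
      fr (fun r : V → Fin M => ∀ v, v ∈ P → code (r v) ≠ none) ≤ (2 / M : ℝ) ^ q := by
    intro P hP
    rw [fr_pi (fun v (a : Fin M) => v ∈ P → code a ≠ none)]
    have h3 : ∀ v, fr (fun a : Fin M => v ∈ P → code a ≠ none) ≤
        if v ∈ P then (2 / M : ℝ) else 1 := by
      intro v
      split_ifs with hv
      · refine le_trans (fr_mono fun a ha => ha hv) (fr_code_set hM)
      · exact fr_le_one _
    refine (Finset.prod_le_prod (fun v _ => fr_nonneg _) (fun v _ => h3 v)).trans (le_of_eq ?_)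
    rw [Finset.prod_ite, Finset.prod_const_one, mul_one, Finset.prod_const]
    congr 1
    rw [← (Finset.mem_powersetCard.1 hP).2]
    congr 1
    ext v; simp
  refine (Finset.sum_le_sum h2).trans ?_
  rw [Finset.sum_const, nsmul_eq_mul, Finset.card_powersetCard]
  have : ((e.card.choose q : ℕ) : ℝ) ≤ 2 ^ e.card := by
    exact_mod_cast Nat.choose_le_two_pow e.card q
  gcongr

/-- Existence of the restriction. -/
theorem restriction_exists {M : ℕ} (hM : 2 ≤ M) (q w : ℕ) (E : Fin m → Fin k → V)
    (L : List (Clause V))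
    (hnum : (L.length : ℝ) * Real.exp (-(1 / M : ℝ)) ^ w + m * (2 ^ k * (2 / M : ℝ) ^ q) < 1) :
    ∃ ρ : V → Option Bool, (∀ C ∈ L, TSat ρ C ∨ (vars C).card ≤ w) ∧
      ∀ j, ((edge E j).filter fun v => ρ v ≠ none).card < q := by
  classical
  have : Nonempty (Fin M) := ⟨⟨0, by omega⟩⟩
  have hb1 : fr (fun r : V → Fin M => ∃ C ∈ L.toFinset.filter (fun C => w < (vars C).card),
      ¬ TSat (fun v => code (r v)) C) ≤ (L.length : ℝ) * Real.exp (-(1 / M : ℝ)) ^ w := by
    refine (fr_exists_le _ _).trans ?_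
    refine (Finset.sum_le_card_nsmul _ _ (Real.exp (-(1 / M : ℝ)) ^ w) ?_).trans ?_
    · intro C hC
      refine (fr_clause hM C).trans ?_
      refine pow_le_pow_of_le_one (Real.exp_pos _).le ?_ (Finset.mem_filter.1 hC).2.le
      rw [Real.exp_le_one_iff]
      have : (0 : ℝ) ≤ 1 / M := by positivity
      linarith
    · rw [nsmul_eq_mul]
      have h1 : (L.toFinset.filter fun C => w < (vars C).card).card ≤ L.length :=
        (Finset.card_filter_le _ _).trans (List.toFinset_card_le L)
      have h2 : ((L.toFinset.filter fun C => w < (vars C).card).card : ℝ) ≤ L.length := by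
        exact_mod_cast h1
      exact mul_le_mul_of_nonneg_right h2 (by positivity)
  have hb2 : fr (fun r : V → Fin M => ∃ j ∈ (univ : Finset (Fin m)),
      q ≤ ((edge E j).filter fun v => code (r v) ≠ none).card) ≤
      m * (2 ^ k * (2 / M : ℝ) ^ q) := by
    refine (fr_exists_le _ _).trans ?_
    refine (Finset.sum_le_card_nsmul _ _ (2 ^ k * (2 / M : ℝ) ^ q) ?_).trans ?_
    · intro j _
      refine (fr_edge hM q (edge E j)).trans ?_
      refine mul_le_mul_of_nonneg_right ?_ (by positivity)
      exact pow_le_pow_right₀ (by norm_num) (edge_card E j)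
    · rw [nsmul_eq_mul, Finset.card_univ, Fintype.card_fin]
  obtain ⟨r, hr⟩ := exists_not_of_fr_lt (lt_of_le_of_lt ((fr_or_le _ _).trans
    (add_le_add hb1 hb2)) hnum)
  push Not at hr
  obtain ⟨h1, h2⟩ := hr
  refine ⟨fun v => code (r v), ?_, ?_⟩
  · intro C hC
    by_cases hw : (vars C).card ≤ w
    · exact Or.inr hw
    · exact Or.inl (h1 C (Finset.mem_filter.2 ⟨List.mem_toFinset.2 hC, not_le.1 hw⟩))
  · intro j
    exact h2 j (Finset.mem_univ j)

end Hyp

end Pool.Agent.PR
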