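import Mathlib
import Pool.Agent.Lib_helper80.PR.Hyp

/-!
# Exponential lower bound for propagation redundancy without new variables
-/

namespace Pool.Agent.PR

open Finset Filter

theorem exp_small {x : ℝ} (hx : x ≤ 1 / 8) : Real.exp x - 1 < 1 / 2 := by
  have h1 : Real.exp x ≤ Real.exp (1 / 8) := Real.exp_le_exp.2 hx
  have h2 := Real.add_one_le_exp (-(1 / 8 : ℝ))
  have h3 : Real.exp (1 / 8) * Real.exp (-(1 / 8 : ℝ)) = 1 := by
    rw [← Real.exp_add]; simp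
  have h4 : 0 < Real.exp (1 / 8) := Real.exp_pos _
  nlinarith

theorem num_event : ∀ᶠ t : ℕ in atTop, 8 ≤ t ∧ (t : ℝ) ^ 10 * Real.exp (-(t : ℝ)) ≤ 1 / 8 ∧
    (2 ^ 23 * 108 ^ 24 : ℝ) / t ≤ 1 / 8 ∧ (2 ^ 59 : ℝ) / t ≤ 1 / 2 := by
  have h1 : Tendsto (fun t : ℕ => (t : ℝ) ^ 10 * Real.exp (-(t : ℝ))) atTop (nhds 0) :=
    (Real.tendsto_pow_mul_exp_neg_atTop_nhds_zero 10).comp tendsto_natCast_atTop_atTop
  have h2 : Tendsto (fun t : ℕ => (2 ^ 23 * 108 ^ 24 : ℝ) / t) atTop (nhds 0) :=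
    tendsto_const_div_atTop_nhds_zero_nat _
  have h3 : Tendsto (fun t : ℕ => (2 ^ 59 : ℝ) / t) atTop (nhds 0) :=
    tendsto_const_div_atTop_nhds_zero_nat _
  filter_upwards [eventually_ge_atTop 8, h1.eventually (ge_mem_nhds (by norm_num : (0:ℝ) < 1 / 8)),
    h2.eventually (ge_mem_nhds (by norm_num : (0:ℝ) < 1 / 8)),
    h3.eventually (ge_mem_nhds (by norm_num : (0:ℝ) < 1 / 2))] with t a b c d
  exact ⟨a, b, c, d⟩

theorem lower_bound : ∃ t₀ : ℕ, ∀ t : ℕ, t₀ ≤ t →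
    ∃ F : CNF (Fin (t ^ 10)), Unsat F ∧ (∀ C ∈ F, C.card ≤ 24 ∧ ∀ l ∈ C, neg l ∉ C) ∧
      F.card ≤ 2 ^ 47 * t ^ 11 ∧
      ∀ (L : List (Clause (Fin (t ^ 10)))) (Γ : CNF (Fin (t ^ 10))),
        Derives F L Γ → ∅ ∈ Γ → 2 ^ t ≤ L.length := by
  classical
  obtain ⟨t₀, ht₀⟩ := eventually_atTop.1 num_event
  refine ⟨t₀, fun t ht => ?_⟩
  obtain ⟨h8, hn1, hn2, hn3⟩ := ht₀ t ht
  have ht0 : 0 < t := by omega
  have htR : (0 : ℝ) < t := by exact_mod_cast ht0
  have : Nonempty (Fin (t ^ 10)) := ⟨⟨0, by positivity⟩⟩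
  set w := t * (t + 2) with hw
  set s := 2 * (2 * w + 24) with hs
  have hsle : s ≤ 6 * t ^ 2 := by
    rw [hs, hw]
    nlinarith
  have hcard : Fintype.card (Fin (t ^ 10)) = t ^ 10 := Fintype.card_fin _
  obtain ⟨E, hA, hB⟩ := hyp_exists (V := Fin (t ^ 10)) (m := 2 ^ 23 * t ^ 11) (k := 23) 18 s (by
    rw [hcard]
    have e1 : (((2 ^ 23 * t ^ 11 : ℕ) : ℝ) / (((t ^ 10 : ℕ) : ℝ) * 2 ^ 23)) = t := by
      push_cast
      field_simp
      norm_num
    rw [e1]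
    have e2 : Real.exp (((t ^ 10 : ℕ) : ℝ) * Real.exp (-(t : ℝ))) - 1 < 1 / 2 := by
      refine exp_small ?_
      push_cast
      exact hn1
    have e3 : Real.exp (((2 ^ 23 * t ^ 11 : ℕ) : ℝ) * (((t ^ 10 : ℕ) : ℝ) ^ 18 *
        (((18 * s : ℕ) : ℝ) / ((t ^ 10 : ℕ) : ℝ)) ^ (23 + 1))) - 1 < 1 / 2 := by
      refine exp_small (le_trans ?_ hn2)
      have h1 : ((18 * s : ℕ) : ℝ) ≤ 108 * (t : ℝ) ^ 2 := by
        have : 18 * s ≤ 108 * t ^ 2 := by omega
        exact_mod_cast this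
      have h2 : (((18 * s : ℕ) : ℝ) / ((t ^ 10 : ℕ) : ℝ)) ^ (23 + 1) ≤
          (108 * (t : ℝ) ^ 2 / ((t ^ 10 : ℕ) : ℝ)) ^ (23 + 1) := by
        gcongr
      refine (mul_le_mul_of_nonneg_left (mul_le_mul_of_nonneg_left h2 (by positivity))
        (by positivity)).trans (le_of_eq ?_)
      push_cast
      field_simp
      norm_num
    linarith)
  obtain ⟨β, hβ⟩ := beta_exists E (by
    rw [hcard]
    calc t ^ 10 < 2 ^ 23 * t ^ 10 := by
          have : 0 < t ^ 10 := by positivity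
          omega
      _ ≤ 2 ^ 23 * t ^ 11 := Nat.mul_le_mul_left _ (Nat.pow_le_pow_right ht0 (by norm_num)))
  refine ⟨cnf E β, cnf_unsat E β hβ, ?_, ?_, ?_⟩
  · intro C hC
    obtain ⟨j, a, rfl, -, hta⟩ := mem_cnf hC
    refine ⟨clauseOf_card E j a, fun l hl hn => hta ⟨l, hl, hn⟩⟩
  · refine (cnf_card E β).trans (le_of_eq ?_)
    ring
  · intro L Γ hD hemp
    by_contra hlt
    rw [not_le] at hlt
    obtain ⟨ρ, hL, hρ⟩ := restriction_exists (M := t) (by omega) 12 w E L (by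
      have e1 : Real.exp (-(1 / (t : ℝ))) ^ w = Real.exp (-((t : ℝ) + 2)) := by
        rw [← Real.exp_nat_mul]
        congr 1
        rw [hw]
        push_cast
        field_simp
      have e2 : (L.length : ℝ) ≤ Real.exp t := by
        have h1 : (L.length : ℝ) ≤ 2 ^ t := by exact_mod_cast hlt.le
        have h2 : (2 : ℝ) ^ t ≤ Real.exp 1 ^ t := by
          refine pow_le_pow_left₀ (by norm_num) ?_ t
          have := Real.add_one_le_exp (1 : ℝ)
          linarith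
        rw [← Real.exp_nat_mul, mul_one] at h2
        exact h1.trans h2
      have e3 : (L.length : ℝ) * Real.exp (-(1 / (t : ℝ))) ^ w < 1 / 2 := by
        rw [e1]
        have h3 : (L.length : ℝ) * Real.exp (-((t : ℝ) + 2)) ≤
            Real.exp t * Real.exp (-((t : ℝ) + 2)) :=
          mul_le_mul_of_nonneg_right e2 (Real.exp_pos _).le
        have h4 : Real.exp t * Real.exp (-((t : ℝ) + 2)) = Real.exp (-2) := by
          rw [← Real.exp_add]; congr 1; ring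
        have h5 : Real.exp (-2) * Real.exp 2 = 1 := by rw [← Real.exp_add]; simp
        have h6 := Real.add_one_le_exp (2 : ℝ)
        have h7 := Real.exp_pos (-2)
        nlinarith
      have e4 : ((2 ^ 23 * t ^ 11 : ℕ) : ℝ) * (2 ^ 24 * (2 / (t : ℝ)) ^ 12) ≤ 1 / 2 := by
        refine le_trans (le_of_eq ?_) hn3
        push_cast
        field_simp
        norm_num
      linarith)
    have hE : Expand E ρ s := by
      refine expand_of (c := 18) hA fun j => ?_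
      have := hρ j
      omega
    refine no_refutation (w := w) hE (by rw [hs]) ?_ ?_ ?_ hβ hD hL hemp
    · rw [hw]; nlinarith
    · rw [hw]; nlinarith
    · exact hB

end Pool.Agent.PR
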